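import Pool.Agent.Helper50.KornDens3

set_option autoImplicit false

open Pool.Agent.Helper50.Korn

namespace Pool.Agent.Results.MP_67a05c_an.KornBall

/-- The Korn constant (second case) of the unit ball of `ℝⁿ`, `n ≥ 3`: with
`m = ⌈(1 + √(1 + 4n)) / 2⌉` it equals `2 (m + 1) (2 m + n - 2) / (m² + m + n - 2)`. -/
theorem result (n : ℕ) (hn : 3 ≤ n) (m : ℕ) (hm : m = ⌈(1 + Real.sqrt (1 + 4 * n)) / 2⌉₊) :
    IsLeast {K : ℝ | KornHolds n K}
      (2 * ((m : ℝ) + 1) * (2 * m + n - 2) / ((m : ℝ) ^ 2 + m + n - 2)) := by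
  subst hm
  exact korn_ball n hn

end Pool.Agent.Results.MP_67a05c_an.KornBall
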